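import Pool.Agent.Y212.RZ.Selc2

/-!
# Project RZ (helper667): part LOW4, the classes of the 2-torsion points
-/

set_option autoImplicit false

namespace Pool.Agent.Y212.RZ

open Pool.Agent.W307.SE Filter Topology

/-- the elements close to one are squares -/
theorem near_one {K : Type} [NontriviallyNormedField K] [CompleteSpace K] [CharZero K] :
    ∀ᶠ z in 𝓝 (1 : K), IsSquare z := by
  have h1 : HasStrictDerivAt (fun x : K => x ^ 2) (((2 : ℕ) : K) * (1 : K) ^ (2 - 1)) 1 :=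
    hasStrictDerivAt_pow 2 1
  have h2 : ((2 : ℕ) : K) * (1 : K) ^ (2 - 1) ≠ 0 := by
    rw [one_pow, mul_one]
    exact Nat.cast_ne_zero.2 two_ne_zero
  have h3 := h1.map_nhds_eq h2
  simp only [one_pow] at h3
  rw [← h3, eventually_map]
  exact Eventually.of_forall fun x => ⟨x, by ring⟩

/-- a small nonzero element `u` such that `1 + c u²` and `1 + c' u²` are squares, and not zero -/
theorem exists_small {K : Type} [NontriviallyNormedField K] [CompleteSpace K] [CharZero K]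
    (c c' : K) : ∃ u : K, u ≠ 0 ∧ (IsSquare (1 + c * u ^ 2) ∧ 1 + c * u ^ 2 ≠ 0) ∧
      (IsSquare (1 + c' * u ^ 2) ∧ 1 + c' * u ^ 2 ≠ 0) := by
  have key : ∀ c : K, ∀ᶠ u in 𝓝 (0 : K), IsSquare (1 + c * u ^ 2) ∧ 1 + c * u ^ 2 ≠ 0 := by
    intro c
    have hcont : Tendsto (fun u : K => 1 + c * u ^ 2) (𝓝 0) (𝓝 1) := by
      have : Continuous (fun u : K => 1 + c * u ^ 2) := by fun_prop
      have h := this.tendsto 0
      simpa using h
    have h1 : ∀ᶠ z in 𝓝 (1 : K), IsSquare z ∧ z ≠ 0 :=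
      near_one.and (isOpen_ne.mem_nhds one_ne_zero)
    exact hcont.eventually h1
  have h : ∀ᶠ u in 𝓝[≠] (0 : K), u ≠ 0 ∧ (IsSquare (1 + c * u ^ 2) ∧ 1 + c * u ^ 2 ≠ 0) ∧
      (IsSquare (1 + c' * u ^ 2) ∧ 1 + c' * u ^ 2 ≠ 0) := by
    have h1 : ∀ᶠ u in 𝓝[≠] (0 : K), u ≠ 0 := eventually_mem_nhdsWithin
    have h2 := ((key c).and (key c')).filter_mono (nhdsWithin_le_nhds (s := {0}ᶜ))
    exact h1.and h2
  exact h.exists

/-- the four classes are locally soluble -/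
theorem loc_one {K : Type} [NontriviallyNormedField K] [CompleteSpace K] [CharZero K]
    (A B : ℤ) : Loc K A B 1 1 := by
  obtain ⟨u, hu, ⟨⟨s, hs⟩, hn⟩, ⟨⟨s', hs'⟩, hn'⟩⟩ := exists_small (-(A : K)) (-(B : K))
  have hs0 : s ≠ 0 := by
    rintro rfl
    exact hn (by rw [hs, mul_zero])
  have hs0' : s' ≠ 0 := by
    rintro rfl
    exact hn' (by rw [hs', mul_zero])
  refine ⟨(u⁻¹) ^ 2, u⁻¹ ^ 3 * (s * s'), mul_ne_zero (pow_ne_zero _ (inv_ne_zero hu))
    (mul_ne_zero hs0 hs0'), ?_, ?_, ?_⟩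
  · have h1 : (u⁻¹) ^ 2 - A = (u⁻¹) ^ 2 * (s * s) := by
      rw [← hs]
      field_simp
      ring
    have h2 : (u⁻¹) ^ 2 - B = (u⁻¹) ^ 2 * (s' * s') := by
      rw [← hs']
      field_simp
      ring
    rw [h1, h2]
    ring
  · exact ⟨u⁻¹, by push_cast; ring⟩
  · have h1 : (u⁻¹) ^ 2 - A = (u⁻¹) ^ 2 * (s * s) := by
      rw [← hs]
      field_simp
      ring
    rw [h1]
    exact ⟨u⁻¹ * s, by push_cast; ring⟩

/-- near a root: general form. `e` the root, `f`, `g` the differences with the other two. -/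
theorem near_root {K : Type} [NontriviallyNormedField K] [CompleteSpace K] [CharZero K]
    (f g : K) (hf : f ≠ 0) (hg : g ≠ 0) : ∃ t r r' y : K, y ≠ 0 ∧ r ≠ 0 ∧ r' ≠ 0 ∧
      f + t = f * r ^ 2 ∧ g + t = g * r' ^ 2 ∧ y ^ 2 = t * (f + t) * (g + t) ∧
      IsSquare (t * (f * g)) := by
  obtain ⟨u, hu, ⟨⟨s, hs⟩, hn⟩, ⟨⟨s', hs'⟩, hn'⟩⟩ := exists_small g f
  have hs0 : s ≠ 0 := by
    rintro rfl
    exact hn (by rw [hs, mul_zero])
  have hs0' : s' ≠ 0 := by
    rintro rfl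
    exact hn' (by rw [hs', mul_zero])
  refine ⟨f * g * u ^ 2, s, s', f * g * u * s * s', ?_, hs0, hs0', ?_, ?_, ?_, ?_⟩
  · exact mul_ne_zero (mul_ne_zero (mul_ne_zero (mul_ne_zero hf hg) hu) hs0) hs0'
  · linear_combination f * hs
  · linear_combination g * hs'
  · have h1 : f + f * g * u ^ 2 = f * (s * s) := by linear_combination f * hs
    have h2 : g + f * g * u ^ 2 = g * (s' * s') := by linear_combination g * hs'
    rw [h1, h2]
    ring
  · exact ⟨f * g * u, by ring⟩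

theorem loc_zero {K : Type} [NontriviallyNormedField K] [CompleteSpace K] [CharZero K]
    {A B d1 t1 d2 t2 : ℤ} (hA : A ≠ 0) (hB : B ≠ 0) (h1 : A * B = d1 * t1 ^ 2) (ht1 : t1 ≠ 0)
    (h2 : -A = d2 * t2 ^ 2) (ht2 : t2 ≠ 0) : Loc K A B d1 d2 := by
  have hA' : (A : K) ≠ 0 := Int.cast_ne_zero.2 hA
  have hB' : (B : K) ≠ 0 := Int.cast_ne_zero.2 hB
  have ht1' : (t1 : K) ≠ 0 := Int.cast_ne_zero.2 ht1
  have ht2' : (t2 : K) ≠ 0 := Int.cast_ne_zero.2 ht2
  have h1' : (A : K) * B = d1 * t1 ^ 2 := by exact_mod_cast congrArg (fun z : ℤ => (z : K)) h1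
  have h2' : -(A : K) = d2 * t2 ^ 2 := by exact_mod_cast congrArg (fun z : ℤ => (z : K)) h2
  obtain ⟨t, r, r', y, hy, hr, hr', e1, e2, e3, s, hs⟩ :=
    near_root (-(A : K)) (-(B : K)) (neg_ne_zero.2 hA') (neg_ne_zero.2 hB')
  refine ⟨t, y, hy, ?_, ⟨s / t1, ?_⟩, ⟨A * r / t2, ?_⟩⟩
  · rw [e3]
    ring
  · rw [div_mul_div_comm, eq_div_iff (mul_ne_zero ht1' ht1')]
    linear_combination hs - t * h1'
  · rw [div_mul_div_comm, eq_div_iff (mul_ne_zero ht2' ht2')]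
    have e4 : t - A = -A * r ^ 2 := by linear_combination e1
    rw [e4]
    linear_combination (A * r ^ 2) * h2'

theorem loc_A {K : Type} [NontriviallyNormedField K] [CompleteSpace K] [CharZero K]
    {A B d1 t1 d2 t2 : ℤ} (hA : A ≠ 0) (hAB : A ≠ B) (h1 : A = d1 * t1 ^ 2) (ht1 : t1 ≠ 0)
    (h2 : A * (A - B) = d2 * t2 ^ 2) (ht2 : t2 ≠ 0) : Loc K A B d1 d2 := by
  have hA' : (A : K) ≠ 0 := Int.cast_ne_zero.2 hA
  have hAB' : (A : K) - B ≠ 0 := by
    rw [sub_ne_zero]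
    exact fun h => hAB (Int.cast_injective h)
  have ht1' : (t1 : K) ≠ 0 := Int.cast_ne_zero.2 ht1
  have ht2' : (t2 : K) ≠ 0 := Int.cast_ne_zero.2 ht2
  have h1' : (A : K) = d1 * t1 ^ 2 := by exact_mod_cast congrArg (fun z : ℤ => (z : K)) h1
  have h2' : (A : K) * (A - B) = d2 * t2 ^ 2 := by
    exact_mod_cast congrArg (fun z : ℤ => (z : K)) h2
  obtain ⟨t, r, r', y, hy, hr, hr', e1, e2, e3, s, hs⟩ :=
    near_root (A : K) ((A : K) - B) hA' hAB'
  refine ⟨A + t, y, hy, ?_, ⟨A * r / t1, ?_⟩, ⟨s / t2, ?_⟩⟩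
  · rw [e3]
    ring
  · rw [div_mul_div_comm, eq_div_iff (mul_ne_zero ht1' ht1'), e1]
    linear_combination (-(A : K) * r ^ 2) * h1'
  · rw [div_mul_div_comm, eq_div_iff (mul_ne_zero ht2' ht2')]
    linear_combination hs - t * h2'

theorem loc_B {K : Type} [NontriviallyNormedField K] [CompleteSpace K] [CharZero K]
    {A B d1 t1 d2 t2 : ℤ} (hB : B ≠ 0) (hAB : A ≠ B) (h1 : B = d1 * t1 ^ 2) (ht1 : t1 ≠ 0)
    (h2 : B - A = d2 * t2 ^ 2) (ht2 : t2 ≠ 0) : Loc K A B d1 d2 := by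
  have hB' : (B : K) ≠ 0 := Int.cast_ne_zero.2 hB
  have hAB' : (B : K) - A ≠ 0 := by
    rw [sub_ne_zero]
    exact fun h => hAB (Int.cast_injective h).symm
  have ht1' : (t1 : K) ≠ 0 := Int.cast_ne_zero.2 ht1
  have ht2' : (t2 : K) ≠ 0 := Int.cast_ne_zero.2 ht2
  have h1' : (B : K) = d1 * t1 ^ 2 := by exact_mod_cast congrArg (fun z : ℤ => (z : K)) h1
  have h2' : (B : K) - A = d2 * t2 ^ 2 := by
    exact_mod_cast congrArg (fun z : ℤ => (z : K)) h2
  obtain ⟨t, r, r', y, hy, hr, hr', e1, e2, e3, s, hs⟩ :=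
    near_root (B : K) ((B : K) - A) hB' hAB'
  refine ⟨B + t, y, hy, ?_, ⟨B * r / t1, ?_⟩, ⟨(B - A) * r' / t2, ?_⟩⟩
  · rw [e3]
    ring
  · rw [div_mul_div_comm, eq_div_iff (mul_ne_zero ht1' ht1'), e1]
    linear_combination (-(B : K) * r ^ 2) * h1'
  · rw [div_mul_div_comm, eq_div_iff (mul_ne_zero ht2' ht2')]
    have e4 : (B : K) + t - A = (B - A) * r' ^ 2 := by linear_combination e2
    rw [e4]
    linear_combination (-((B : K) - A) * r' ^ 2) * h2'

/-- **LOW4** (the classes of the 2-torsion points). -/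
theorem LOW4 : Pool.Agent.Y667.RZ.St_LOW4 := by
  intro a b hsa ha hb hba hfin
  have ha0 : a ≠ 0 := by omega
  have hb0 : b ≠ 0 := by omega
  have hab : a ≠ b := by omega
  obtain ⟨x1, y1, sx1, hy1, e1, p1, -⟩ := exists_sf (a * b) (mul_ne_zero ha0 hb0)
  obtain ⟨x2, y2, sx2, hy2, e2, p2, -⟩ := exists_sf (a * (a - b))
    (mul_ne_zero ha0 (sub_ne_zero.2 hab))
  obtain ⟨x3, y3, sx3, hy3, e3, p3, -⟩ := exists_sf b hb0
  obtain ⟨x4, y4, sx4, hy4, e4, -, n4⟩ := exists_sf (b - a) (sub_ne_zero.2 hab.symm)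
  have P2 : 0 < x2 := p2 (mul_pos (by omega) (by omega))
  have N4 : x4 < 0 := n4 (by omega)
  have sna : Squarefree (-a) := by
    rw [← Int.squarefree_natAbs, Int.natAbs_neg, Int.squarefree_natAbs]
    exact hsa
  have m0 : ((1, 1) : ℤ × ℤ) ∈ Sel a b :=
    ⟨squarefree_one, squarefree_one, loc_one a b, fun p _ => loc_one a b⟩
  have m1 : ((x1, -a) : ℤ × ℤ) ∈ Sel a b := by
    refine ⟨sx1, sna, ?_, fun p _ => ?_⟩
    · exact loc_zero ha0 hb0 e1 hy1 (t2 := 1) (by ring) one_ne_zero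
    · exact loc_zero ha0 hb0 e1 hy1 (t2 := 1) (by ring) one_ne_zero
  have m2 : ((a, x2) : ℤ × ℤ) ∈ Sel a b := by
    refine ⟨hsa, sx2, ?_, fun p _ => ?_⟩
    · exact loc_A ha0 hab (t1 := 1) (by ring) one_ne_zero e2 hy2
    · exact loc_A ha0 hab (t1 := 1) (by ring) one_ne_zero e2 hy2
  have m3 : ((x3, x4) : ℤ × ℤ) ∈ Sel a b := by
    refine ⟨sx3, sx4, ?_, fun p _ => ?_⟩
    · exact loc_B hb0 hab e3 hy3 e4 hy4
    · exact loc_B hb0 hab e3 hy3 e4 hy4
  have d01 : ((1, 1) : ℤ × ℤ) ≠ (x1, -a) := by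
    intro h
    have := congrArg Prod.snd h
    simp only at this
    omega
  have d02 : ((1, 1) : ℤ × ℤ) ≠ (a, x2) := by
    intro h
    have := congrArg Prod.fst h
    simp only at this
    omega
  have d03 : ((1, 1) : ℤ × ℤ) ≠ (x3, x4) := by
    intro h
    have := congrArg Prod.snd h
    simp only at this
    omega
  have d12 : ((x1, -a) : ℤ × ℤ) ≠ (a, x2) := by
    intro h
    have := congrArg Prod.snd h
    simp only at this
    omega
  have d23 : ((a, x2) : ℤ × ℤ) ≠ (x3, x4) := by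
    intro h
    have := congrArg Prod.snd h
    simp only at this
    omega
  have d13 : ((x1, -a) : ℤ × ℤ) ≠ (x3, x4) := by
    intro h
    have h1 : x1 = x3 := congrArg Prod.fst h
    rw [h1] at e1
    -- `a * b = x3 y1²`, `b = x3 y3²`
    have h2 : a * y3 ^ 2 = y1 ^ 2 := by
      have h3 : x3 ≠ 0 := sx3.ne_zero
      apply mul_left_cancel₀ h3
      linear_combination e1 - a * e3
    have h4 : y3 ∣ y1 := by
      have : y3 ^ 2 ∣ y1 ^ 2 := ⟨a, by rw [← h2]; ring⟩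
      exact (Int.pow_dvd_pow_iff two_ne_zero).1 this
    obtain ⟨c, rfl⟩ := h4
    have h5 : a = c * c := by
      apply mul_right_cancel₀ (pow_ne_zero 2 hy3)
      linear_combination h2
    have h6 := hsa c ⟨1, by rw [mul_one]; exact h5⟩
    rcases Int.isUnit_iff.1 h6 with rfl | rfl <;> omega
  have hsub : ({(1, 1), (x1, -a), (a, x2), (x3, x4)} : Set (ℤ × ℤ)) ⊆ Sel a b := by
    rintro z (rfl | rfl | rfl | rfl)
    · exact m0
    · exact m1
    · exact m2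
    · exact m3
  have hcard : ({(1, 1), (x1, -a), (a, x2), (x3, x4)} : Set (ℤ × ℤ)).ncard = 4 := by
    rw [Set.ncard_insert_of_notMem, Set.ncard_insert_of_notMem, Set.ncard_pair d23]
    · rintro (h | h)
      · exact d12 h
      · exact d13 h
    · rintro (h | h | h)
      · exact d01 h
      · exact d02 h
      · exact d03 h
  rw [← hcard]
  exact Set.ncard_le_ncard hsub hfin

end Pool.Agent.Y212.RZ
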