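import Pool.Agent.Y667.RZ.Stm2
import Pool.Agent.W597.SE.SELC

/-!
# Project RZ (helper667): part SELC2, the two descriptions of the 2-Selmer group
-/

set_option autoImplicit false

namespace Pool.Agent.Y212.RZ

open Pool.Agent.W307.SE

/-- squarefree part of a nonzero integer, with sign -/
theorem exists_sf (m : ℤ) (hm : m ≠ 0) :
    ∃ (d t : ℤ), Squarefree d ∧ t ≠ 0 ∧ m = d * t ^ 2 ∧ (0 < m → 0 < d) ∧ (m < 0 → d < 0) := by
  obtain ⟨a, b, h, hsq⟩ := Nat.sq_mul_squarefree m.natAbs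
  have ha0 : a ≠ 0 := hsq.ne_zero
  have hb0 : b ≠ 0 := by
    rintro rfl
    rw [zero_pow two_ne_zero, zero_mul] at h
    exact hm (Int.natAbs_eq_zero.1 h.symm)
  have hapos : (0 : ℤ) < a := by exact_mod_cast Nat.pos_of_ne_zero ha0
  have hsqa : Squarefree (a : ℤ) := Int.squarefree_natCast.2 hsq
  have hc : ((m.natAbs : ℕ) : ℤ) = (b : ℤ) ^ 2 * a := by exact_mod_cast h.symm
  rcases lt_or_gt_of_ne hm with hneg | hpos
  · refine ⟨-(a : ℤ), b, ?_, by exact_mod_cast hb0, ?_, fun h0 => absurd h0 (by omega),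
      fun _ => by omega⟩
    · rw [← Int.squarefree_natAbs, Int.natAbs_neg, Int.squarefree_natAbs]
      exact hsqa
    · have : m = -((m.natAbs : ℕ) : ℤ) := by omega
      rw [this, hc]
      ring
  · refine ⟨(a : ℤ), b, hsqa, by exact_mod_cast hb0, ?_, fun _ => hapos,
      fun h0 => absurd h0 (by omega)⟩
    have : m = ((m.natAbs : ℕ) : ℤ) := by omega
    rw [this, hc]
    ring

/-- the local condition is transported back -/
theorem locT' {K : Type} [Field K] [CharZero K] {A B e1 e2 e3 M N d1 d2 d3 t : ℤ} {q : ℚ}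
    {d : ℤ → ℤ}
    (hK : ∀ X : K, X ^ 3 + A * X + B = (X - e1) * (X - e2) * (X - e3))
    (hroot : ∀ e : ℤ, e ^ 3 + A * e + B = 0 → e = e1 ∨ e = e2 ∨ e = e3)
    (v1 : d e1 = d1) (v2 : d e2 = d2) (v3 : d e3 = d3) (ht : t ≠ 0) (h12 : d1 * d2 = d3 * t ^ 2)
    (hq : q ≠ 0)
    (hM : ((e2 - e1 : ℤ) : ℚ) = M * q ^ 2) (hN : ((e3 - e1 : ℤ) : ℚ) = N * q ^ 2)
    (h : Loc K M N d1 d2) : LocR K A B d := by
  obtain ⟨x, y, hy, h1, h2, h3⟩ := h
  have hq' : ((q : ℚ) : K) ≠ 0 := Rat.cast_ne_zero.2 hq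
  have hM' : (e2 : K) - e1 = M * (q : K) ^ 2 := by
    have := congrArg (fun r : ℚ => (r : K)) hM
    push_cast at this
    exact this
  have hN' : (e3 : K) - e1 = N * (q : K) ^ 2 := by
    have := congrArg (fun r : ℚ => (r : K)) hN
    push_cast at this
    exact this
  have x1 : (e1 + (q : K) ^ 2 * x) - e1 = (q : K) ^ 2 * x := by ring
  have x2 : (e1 + (q : K) ^ 2 * x) - e2 = (q : K) ^ 2 * (x - M) := by
    linear_combination -hM'
  have x3 : (e1 + (q : K) ^ 2 * x) - e3 = (q : K) ^ 2 * (x - N) := by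
    linear_combination -hN'
  refine ⟨e1 + (q : K) ^ 2 * x, (q : K) ^ 3 * y, mul_ne_zero (pow_ne_zero _ hq') hy, ?_, ?_⟩
  · rw [hK, x1, x2, x3, mul_pow, h1]
    ring
  · intro e he
    rcases hroot e he with rfl | rfl | rfl
    · rw [x1, v1]
      obtain ⟨s, hs⟩ := h2
      exact ⟨q * s, by linear_combination (q : K) ^ 2 * hs⟩
    · rw [x2, v2]
      obtain ⟨s, hs⟩ := h3
      exact ⟨q * s, by linear_combination (q : K) ^ 2 * hs⟩
    · rw [x3, v3]
      obtain ⟨s, hs⟩ := h2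
      obtain ⟨s', hs'⟩ := h3
      have ht' : (t : K) ≠ 0 := Int.cast_ne_zero.2 ht
      have h12' : (d1 : K) * d2 = d3 * (t : K) ^ 2 := by exact_mod_cast congrArg (fun z : ℤ => (z : K)) h12
      have hne : x * (x - M) ≠ 0 := by
        intro h0
        rw [h0, zero_mul] at h1
        exact hy (pow_eq_zero_iff two_ne_zero |>.1 h1)
      refine ⟨q * (y * s * s') / (x * (x - M) * t), ?_⟩
      rw [div_mul_div_comm, eq_div_iff (mul_ne_zero (mul_ne_zero hne ht') (mul_ne_zero hne ht'))]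
      have e1' : q * (y * s * s') * (q * (y * s * s')) =
          (q : K) ^ 2 * y ^ 2 * (s * s) * (s' * s') := by ring
      rw [e1', ← hs, ← hs', h1]
      linear_combination (-(q : K) ^ 2 * (x - N) * (x * (x - M)) ^ 2) * h12'

/-- **SELC2** (the two descriptions of the 2-Selmer group, equality of the orders). -/
theorem SELC2 : Pool.Agent.Y667.RZ.St_SELC2 := by
  intro A B e1 e2 e3 M N q hdisc hpoly hq hM hN hfin
  obtain ⟨hf, hle⟩ := Pool.Agent.W597.SE.selc A B e1 e2 e3 M N q hdisc hpoly hq hM hN hfin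
  refine ⟨hf, le_antisymm hle ?_⟩
  have c0 := hpoly 0
  have c1 := hpoly 1
  have c2 := hpoly (-1)
  have s1 : e1 + e2 + e3 = 0 := by linarith
  have s2 : A = e1 * e2 + e1 * e3 + e2 * e3 := by linarith
  have s3 : B = -(e1 * e2 * e3) := by linarith
  have hK : ∀ (K : Type) [Field K] (X : K),
      X ^ 3 + A * X + B = (X - e1) * (X - e2) * (X - e3) := by
    intro K _ X
    have t1 : (e1 : K) + e2 + e3 = 0 := by exact_mod_cast congrArg (fun z : ℤ => (z : K)) s1
    rw [s2, s3]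
    push_cast
    linear_combination (X ^ 2) * t1
  have hdisc' : 4 * A ^ 3 + 27 * B ^ 2 = -((e1 - e2) * (e1 - e3) * (e2 - e3)) ^ 2 := by
    have h3 : e3 = -e1 - e2 := by linarith
    rw [s2, s3, h3]
    ring
  have n12 : e1 ≠ e2 := by
    rintro rfl
    apply hdisc
    rw [hdisc']
    ring
  have n13 : e1 ≠ e3 := by
    rintro rfl
    apply hdisc
    rw [hdisc']
    ring
  have n23 : e2 ≠ e3 := by
    rintro rfl
    apply hdisc
    rw [hdisc']
    ring
  have hroot : ∀ e : ℤ, e ^ 3 + A * e + B = 0 → e = e1 ∨ e = e2 ∨ e = e3 := by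
    intro e he
    rw [hpoly] at he
    rcases mul_eq_zero.1 he with h | h
    · rcases mul_eq_zero.1 h with h | h
      · exact Or.inl (by linarith)
      · exact Or.inr (Or.inl (by linarith))
    · exact Or.inr (Or.inr (by linarith))
  have hroot' : ∀ e : ℤ, e = e1 ∨ e = e2 ∨ e = e3 → e ^ 3 + A * e + B = 0 := by
    rintro e (rfl | rfl | rfl) <;> rw [hpoly] <;> ring
  classical
  -- squarefree part
  have hsf : ∀ p : ℤ × ℤ, ∃ d3 : ℤ, p ∈ Sel M N → Squarefree d3 ∧
      ∃ t : ℤ, t ≠ 0 ∧ p.1 * p.2 = d3 * t ^ 2 := by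
    intro p
    by_cases hp : p ∈ Sel M N
    · obtain ⟨d, t, h1, h2, h3, -, -⟩ := exists_sf (p.1 * p.2) (mul_ne_zero hp.1.ne_zero hp.2.1.ne_zero)
      exact ⟨d, fun _ => ⟨h1, t, h2, h3⟩⟩
    · exact ⟨1, fun h => absurd h hp⟩
  choose sf hsf using hsf
  let f : ℤ × ℤ → (ℤ → ℤ) := fun p e =>
    if e = e1 then p.1 else if e = e2 then p.2 else if e = e3 then sf p else 1
  have f1 : ∀ p, f p e1 = p.1 := fun p => if_pos rfl
  have f2 : ∀ p, f p e2 = p.2 := fun p => by
    show (if e2 = e1 then p.1 else if e2 = e2 then p.2 else if e2 = e3 then sf p else 1) = p.2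
    rw [if_neg n12.symm, if_pos rfl]
  have f3 : ∀ p, f p e3 = sf p := fun p => by
    show (if e3 = e1 then p.1 else if e3 = e2 then p.2 else if e3 = e3 then sf p else 1) = sf p
    rw [if_neg n13.symm, if_neg n23.symm, if_pos rfl]
  have f4 : ∀ p e, ¬ (e = e1 ∨ e = e2 ∨ e = e3) → f p e = 1 := fun p e he => by
    show (if e = e1 then p.1 else if e = e2 then p.2 else if e = e3 then sf p else 1) = 1
    rw [if_neg (fun h => he (Or.inl h)), if_neg (fun h => he (Or.inr (Or.inl h))),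
      if_neg (fun h => he (Or.inr (Or.inr h)))]
  refine Set.ncard_le_ncard_of_injOn f ?_ ?_ hf
  · intro p hp
    obtain ⟨h3, t, ht, h12⟩ := hsf p hp
    refine ⟨?_, ?_, ?_, ?_⟩
    · intro e
      by_cases he : e = e1 ∨ e = e2 ∨ e = e3
      · rcases he with rfl | rfl | rfl
        · rw [f1]
          exact hp.1
        · rw [f2]
          exact hp.2.1
        · rw [f3]
          exact h3
      · rw [f4 p e he]
        exact squarefree_one
    · intro e he
      apply f4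
      intro h
      exact he (hroot' e h)
    · exact locT' (hK ℝ) hroot (f1 p) (f2 p) (f3 p) ht h12 hq hM hN hp.2.2.1
    · intro p' _
      exact locT' (hK ℚ_[p']) hroot (f1 p) (f2 p) (f3 p) ht h12 hq hM hN (hp.2.2.2 p')
  · intro p _ p' _ h
    have h1 : p.1 = p'.1 := by rw [← f1 p, ← f1 p', h]
    have h2 : p.2 = p'.2 := by rw [← f2 p, ← f2 p', h]
    exact Prod.ext h1 h2

end Pool.Agent.Y212.RZ
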