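import Mathlib

/-!
# Three Lagrangians of a quadratic space over the field with two elements
-/

set_option autoImplicit false

namespace Pool.Agent.Y212.RZ

open Module

section rad

variable {F X : Type*} [Field F] [AddCommGroup X] [Module F X]

/-- the radical of a submodule -/
def rad (β : X →ₗ[F] X →ₗ[F] F) (S : Submodule F X) : Submodule F X where
  carrier := {p | p ∈ S ∧ ∀ y ∈ S, β p y = 0}
  add_mem' := by
    rintro a b ⟨ha, ha'⟩ ⟨hb, hb'⟩
    exact ⟨S.add_mem ha hb, fun y hy => by
      rw [map_add, LinearMap.add_apply, ha' y hy, hb' y hy, add_zero]⟩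
  zero_mem' := ⟨S.zero_mem, fun y _ => by rw [map_zero, LinearMap.zero_apply]⟩
  smul_mem' := by
    rintro c a ⟨ha, ha'⟩
    exact ⟨S.smul_mem c ha, fun y hy => by
      rw [map_smul, LinearMap.smul_apply, ha' y hy, smul_zero]⟩

theorem mem_rad {β : X →ₗ[F] X →ₗ[F] F} {S : Submodule F X} {p : X} :
    p ∈ rad β S ↔ p ∈ S ∧ ∀ y ∈ S, β p y = 0 := Iff.rfl

variable [FiniteDimensional F X]

/-- a form that is alternating on a submodule has even rank there -/
theorem even_rad (β : X →ₗ[F] X →ₗ[F] F) : ∀ (m : ℕ) (S : Submodule F X), finrank F S = m →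
    (∀ p ∈ S, β p p = 0) → Even (finrank F S + finrank F (rad β S)) := by
  intro m
  induction m using Nat.strong_induction_on with
  | _ m ih =>
    intro S hS halt
    have hskew : ∀ x ∈ S, ∀ y ∈ S, β x y = - β y x := by
      intro x hx y hy
      have h := halt (x + y) (S.add_mem hx hy)
      simp only [LinearMap.add_apply, map_add] at h
      rw [halt x hx, halt y hy] at h
      linear_combination h
    by_cases h0 : ∀ u ∈ S, ∀ v ∈ S, β u v = 0
    · have : rad β S = S := le_antisymm (fun p hp => hp.1) (fun p hp => ⟨hp, h0 p hp⟩)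
      rw [this]
      exact ⟨_, rfl⟩
    · push Not at h0
      obtain ⟨u, hu, v₀, hv₀, huv₀⟩ := h0
      obtain ⟨v, hv, huv⟩ : ∃ v ∈ S, β u v = 1 :=
        ⟨(β u v₀)⁻¹ • v₀, S.smul_mem _ hv₀, by
          rw [map_smul, smul_eq_mul, inv_mul_cancel₀ huv₀]⟩
      have hvu : β v u = -1 := by rw [hskew v hv u hu, huv]
      have huu := halt u hu
      have hvv := halt v hv
      let φ : S →ₗ[F] F × F := ((β u).domRestrict S).prod ((β v).domRestrict S)
      have hφ : ∀ p : S, φ p = (β u p, β v p) := fun p => rfl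
      let S' : Submodule F X := S ⊓ (LinearMap.ker (β u) ⊓ LinearMap.ker (β v))
      have hS' : ∀ p, p ∈ S' ↔ p ∈ S ∧ β u p = 0 ∧ β v p = 0 := fun p => by
        simp only [S', Submodule.mem_inf, LinearMap.mem_ker]
      have hker : LinearMap.ker φ = S'.comap S.subtype := by
        ext p
        rw [LinearMap.mem_ker, hφ, Submodule.mem_comap, hS', Prod.mk_eq_zero]
        simp
      have hrange : LinearMap.range φ = ⊤ := by
        rw [LinearMap.range_eq_top]
        rintro ⟨a, b⟩
        refine ⟨⟨a • v - b • u, S.sub_mem (S.smul_mem _ hv) (S.smul_mem _ hu)⟩, ?_⟩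
        rw [hφ]
        simp only [map_sub, map_smul, huv, hvu, huu, hvv, smul_eq_mul]
        ext <;> simp
      have hdim : finrank F S = finrank F S' + 2 := by
        have h1 := LinearMap.finrank_range_add_finrank_ker φ
        have h2 : finrank F (LinearMap.ker φ) = finrank F S' := by
          rw [hker]
          exact LinearEquiv.finrank_eq (Submodule.comapSubtypeEquivOfLe inf_le_left)
        rw [hrange, finrank_top, h2] at h1
        have h3 : finrank F (F × F) = 2 := by
          rw [Module.finrank_prod, Module.finrank_self]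
        rw [h3] at h1
        omega
      have hrad : rad β S' = rad β S := by
        ext p
        rw [mem_rad, mem_rad, hS']
        constructor
        · rintro ⟨⟨hp, hpu, hpv⟩, hp'⟩
          refine ⟨hp, fun y hy => ?_⟩
          have h4 : y - ((β u y) • v - (β v y) • u) ∈ S' := by
            rw [hS']
            refine ⟨S.sub_mem hy (S.sub_mem (S.smul_mem _ hv) (S.smul_mem _ hu)), ?_, ?_⟩
            · simp only [map_sub, map_smul, huv, huu, smul_eq_mul]
              ring
            · simp only [map_sub, map_smul, hvu, hvv, smul_eq_mul]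
              ring
          have h5 := hp' _ h4
          have h6 : β p u = 0 := by rw [hskew p hp u hu, hpu, neg_zero]
          have h7 : β p v = 0 := by rw [hskew p hp v hv, hpv, neg_zero]
          simp only [map_sub, map_smul, h6, h7, smul_eq_mul] at h5
          linear_combination h5
        · rintro ⟨hp, hp'⟩
          refine ⟨⟨hp, ?_, ?_⟩, fun y hy => hp' y ((hS' y).1 hy).1⟩
          · rw [hskew u hu p hp, hp' u hu, neg_zero]
          · rw [hskew v hv p hp, hp' v hv, neg_zero]
      have h8 := ih (finrank F S') (by omega) S' rfl (fun p hp => halt p ((hS' p).1 hp).1)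
      rw [hrad] at h8
      rw [hdim]
      obtain ⟨r, hr⟩ := h8
      exact ⟨r + 1, by omega⟩

end rad

section lag

variable {F V : Type*} [Field F] [AddCommGroup V] [Module F V] [FiniteDimensional F V]

theorem finrank_prod_sub (S : Submodule F (V × V)) :
    finrank F S = finrank F (S.map (LinearMap.fst F V V)) +
      finrank F (S.comap (LinearMap.inr F V V)) := by
  have h1 := LinearMap.finrank_range_add_finrank_ker ((LinearMap.fst F V V).domRestrict S)
  rw [LinearMap.range_domRestrict] at h1
  let g : (S.comap (LinearMap.inr F V V)) →ₗ[F] S :=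
    { toFun := fun y => ⟨(0, (y : V)), y.2⟩
      map_add' := fun a b => by
        ext <;> simp
      map_smul' := fun c a => by
        ext <;> simp }
  have hg : Function.Injective g := by
    intro a b hab
    have : ((g a : V × V)).2 = ((g b : V × V)).2 := by rw [hab]
    exact Subtype.ext this
  have hk : LinearMap.ker ((LinearMap.fst F V V).domRestrict S) = LinearMap.range g := by
    ext p
    rw [LinearMap.mem_ker, LinearMap.mem_range]
    constructor
    · intro hp
      have hp1 : (p : V × V).1 = 0 := hp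
      refine ⟨⟨(p : V × V).2, ?_⟩, ?_⟩
      · show ((0 : V), (p : V × V).2) ∈ S
        rw [← hp1]
        exact p.2
      · apply Subtype.ext
        show ((0 : V), (p : V × V).2) = (p : V × V)
        rw [← hp1]
    · rintro ⟨y, rfl⟩
      rfl
  rw [hk, LinearMap.finrank_range_of_inj hg] at h1
  exact h1.symm

omit [FiniteDimensional F V] in
theorem orthogonal_sup (B : LinearMap.BilinForm F V) (S T : Submodule F V) :
    B.orthogonal (S ⊔ T) = B.orthogonal S ⊓ B.orthogonal T := by
  ext x
  rw [Submodule.mem_inf, LinearMap.BilinForm.mem_orthogonal_iff,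
    LinearMap.BilinForm.mem_orthogonal_iff, LinearMap.BilinForm.mem_orthogonal_iff]
  constructor
  · intro h
    exact ⟨fun n hn => h n (Submodule.mem_sup_left hn), fun n hn => h n (Submodule.mem_sup_right hn)⟩
  · rintro ⟨h1, h2⟩ n hn
    obtain ⟨a, ha, b, hb, rfl⟩ := Submodule.mem_sup.1 hn
    have h3 : B a x = 0 := h1 a ha
    have h4 : B b x = 0 := h2 b hb
    show B (a + b) x = 0
    rw [map_add, LinearMap.add_apply, h3, h4, add_zero]

theorem orthogonal_inf {B : LinearMap.BilinForm F V} (hB : B.Nondegenerate) (hr : B.IsRefl)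
    (S T : Submodule F V) :
    B.orthogonal (S ⊓ T) = B.orthogonal S ⊔ B.orthogonal T := by
  rw [← LinearMap.BilinForm.orthogonal_orthogonal hB hr (B.orthogonal S ⊔ B.orthogonal T),
    orthogonal_sup, LinearMap.BilinForm.orthogonal_orthogonal hB hr,
    LinearMap.BilinForm.orthogonal_orthogonal hB hr]

end lag

/-- three Lagrangians -/
theorem lag (V : Type) [AddCommGroup V] [Module (ZMod 2) V] [Finite V]
    (B : V →ₗ[ZMod 2] V →ₗ[ZMod 2] ZMod 2) (q : V → ZMod 2) (n : ℕ)
    (A W W' : Submodule (ZMod 2) V) (hV : Module.finrank (ZMod 2) V = 2 * n)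
    (hnd : ∀ x, (∀ y, B x y = 0) → x = 0) (hq : ∀ x y, q (x + y) = q x + q y + B x y)
    (hA : ∀ x ∈ A, q x = 0) (hW : ∀ x ∈ W, q x = 0) (hW' : ∀ x ∈ W', q x = 0)
    (dA : Module.finrank (ZMod 2) A = n) (dW : Module.finrank (ZMod 2) W = n)
    (dW' : Module.finrank (ZMod 2) W' = n) :
    Even (Module.finrank (ZMod 2) (A ⊓ W : Submodule (ZMod 2) V) +
      Module.finrank (ZMod 2) (A ⊓ W' : Submodule (ZMod 2) V) +
      Module.finrank (ZMod 2) (W ⊓ W' : Submodule (ZMod 2) V) + n) := by
  have fact2 : Fact (Nat.Prime 2) := ⟨Nat.prime_two⟩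
  have hfd : FiniteDimensional (ZMod 2) V := Module.Finite.of_finite
  have hsymm : ∀ x y, B x y = B y x := by
    intro x y
    have h1 := hq x y
    have h2 := hq y x
    rw [add_comm y x, h1] at h2
    linear_combination h2
  have hiso : ∀ L : Submodule (ZMod 2) V, (∀ x ∈ L, q x = 0) → ∀ x ∈ L, ∀ y ∈ L, B x y = 0 := by
    intro L hL x hx y hy
    have := hq x y
    rw [hL x hx, hL y hy, hL _ (L.add_mem hx hy)] at this
    linear_combination -this
  have hrefl : LinearMap.BilinForm.IsRefl B := by
    intro x y h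
    rw [hsymm y x]
    exact h
  have hB : LinearMap.BilinForm.Nondegenerate B := by
    constructor
    · intro x hx
      exact hnd x hx
    · intro y hy
      exact hnd y (fun x => by rw [hsymm]; exact hy x)
  have hlag : ∀ L : Submodule (ZMod 2) V, (∀ x ∈ L, q x = 0) →
      Module.finrank (ZMod 2) L = n → LinearMap.BilinForm.orthogonal B L = L := by
    intro L hL dL
    symm
    apply Submodule.eq_of_le_of_finrank_eq
    · intro x hx
      rw [LinearMap.BilinForm.mem_orthogonal_iff]
      intro y hy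
      exact hiso L hL y hy x hx
    · rw [LinearMap.BilinForm.finrank_orthogonal hB, hV, dL]
      omega
  have oA := hlag A hA dA
  have oW := hlag W hW dW
  have oW' := hlag W' hW' dW'
  -- the space `K`
  let K : Submodule (ZMod 2) (V × V) := A.comap (LinearMap.fst _ V V) ⊓
    (W.comap (LinearMap.snd _ V V) ⊓
      W'.comap (LinearMap.fst (ZMod 2) V V + LinearMap.snd (ZMod 2) V V))
  have hK : ∀ p, p ∈ K ↔ p.1 ∈ A ∧ p.2 ∈ W ∧ p.1 + p.2 ∈ W' := fun p => Iff.rfl
  let β : (V × V) →ₗ[ZMod 2] (V × V) →ₗ[ZMod 2] ZMod 2 :=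
    B.compl₁₂ (LinearMap.fst (ZMod 2) V V) (LinearMap.snd (ZMod 2) V V)
  have hβ : ∀ p p', β p p' = B p.1 p'.2 := fun p p' => rfl
  have halt : ∀ p ∈ K, β p p = 0 := by
    intro p hp
    obtain ⟨h1, h2, h3⟩ := (hK p).1 hp
    have := hq p.1 p.2
    rw [hA _ h1, hW _ h2, hW' _ h3] at this
    rw [hβ]
    linear_combination -this
  have heven := even_rad β _ K rfl halt
  -- projections
  have hmK : K.map (LinearMap.fst (ZMod 2) V V) = A ⊓ (W ⊔ W') := by
    ext x
    rw [Submodule.mem_map, Submodule.mem_inf]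
    constructor
    · rintro ⟨p, hp, rfl⟩
      obtain ⟨h1, h2, h3⟩ := (hK p).1 hp
      refine ⟨h1, Submodule.mem_sup.2 ⟨-p.2, W.neg_mem h2, p.1 + p.2, h3, ?_⟩⟩
      show -p.2 + (p.1 + p.2) = p.1
      abel
    · rintro ⟨h1, h2⟩
      obtain ⟨w, hw, w', hw', h⟩ := Submodule.mem_sup.1 h2
      refine ⟨(x, -w), (hK _).2 ⟨h1, W.neg_mem hw, ?_⟩, rfl⟩
      show x + -w ∈ W'
      rw [← h]
      have : w + w' + -w = w' := by abel
      rw [this]
      exact hw'
  have hcK : K.comap (LinearMap.inr (ZMod 2) V V) = W ⊓ W' := by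
    ext y
    rw [Submodule.mem_comap, hK, Submodule.mem_inf]
    simp
  have hmR : (rad β K).map (LinearMap.fst (ZMod 2) V V) = (A ⊓ W) ⊔ (A ⊓ W') := by
    ext x
    rw [Submodule.mem_map]
    constructor
    · rintro ⟨p, hp, rfl⟩
      obtain ⟨hpK, hp'⟩ := mem_rad.1 hp
      obtain ⟨h1, h2, h3⟩ := (hK p).1 hpK
      have h4 : p.1 ∈ LinearMap.BilinForm.orthogonal B (W ⊓ (A ⊔ W')) := by
        rw [LinearMap.BilinForm.mem_orthogonal_iff]
        intro y hy
        show B y p.1 = 0
        rw [hsymm]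
        obtain ⟨hy1, hy2⟩ := Submodule.mem_inf.1 hy
        obtain ⟨a, ha, w', hw', h⟩ := Submodule.mem_sup.1 hy2
        have h5 : ((-a, y) : V × V) ∈ K := by
          rw [hK]
          refine ⟨A.neg_mem ha, hy1, ?_⟩
          show -a + y ∈ W'
          rw [← h]
          have : -a + (a + w') = w' := by abel
          rw [this]
          exact hw'
        exact hp' _ h5
      rw [orthogonal_inf hB hrefl, orthogonal_sup, oW, oA, oW'] at h4
      obtain ⟨w, hw, c, hc, h⟩ := Submodule.mem_sup.1 h4
      obtain ⟨hc1, hc2⟩ := Submodule.mem_inf.1 hc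
      refine Submodule.mem_sup.2 ⟨w, Submodule.mem_inf.2 ⟨?_, hw⟩, c, hc, h⟩
      have : w = p.1 - c := by rw [← h]; abel
      rw [this]
      exact A.sub_mem h1 hc1
    · intro hx
      obtain ⟨a, ha, b, hb, rfl⟩ := Submodule.mem_sup.1 hx
      obtain ⟨ha1, ha2⟩ := Submodule.mem_inf.1 ha
      obtain ⟨hb1, hb2⟩ := Submodule.mem_inf.1 hb
      refine ⟨(a + b, -a), mem_rad.2 ⟨(hK _).2 ⟨A.add_mem ha1 hb1, W.neg_mem ha2, ?_⟩, ?_⟩, rfl⟩
      · show a + b + -a ∈ W'
        have : a + b + -a = b := by abel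
        rw [this]
        exact hb2
      · intro y hy
        obtain ⟨h1, h2, h3⟩ := (hK y).1 hy
        rw [hβ]
        show B (a + b) y.2 = 0
        rw [map_add, LinearMap.add_apply, hiso W hW a ha2 y.2 h2]
        have h4 := hiso W' hW' b hb2 _ h3
        rw [map_add, hiso A hA b hb1 y.1 h1] at h4
        rw [zero_add] at h4 ⊢
        exact h4
  have hcR : (rad β K).comap (LinearMap.inr (ZMod 2) V V) = W ⊓ W' := by
    rw [← hcK]
    ext y
    rw [Submodule.mem_comap, Submodule.mem_comap, mem_rad]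
    constructor
    · exact fun h => h.1
    · intro h
      refine ⟨h, fun y' _ => ?_⟩
      rw [hβ]
      show B 0 y'.2 = 0
      rw [map_zero, LinearMap.zero_apply]
  have dK := finrank_prod_sub K
  have dR := finrank_prod_sub (rad β K)
  rw [hmK, hcK] at dK
  rw [hmR, hcR] at dR
  -- dimensions
  have d1 : finrank (ZMod 2) (A ⊓ (W ⊔ W') : Submodule (ZMod 2) V) +
      finrank (ZMod 2) (A ⊔ (W ⊓ W') : Submodule (ZMod 2) V) = 2 * n := by
    have h1 : LinearMap.BilinForm.orthogonal B (A ⊔ (W ⊓ W')) = A ⊓ (W ⊔ W') := by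
      rw [orthogonal_sup, orthogonal_inf hB hrefl, oA, oW, oW']
    rw [← h1, LinearMap.BilinForm.finrank_orthogonal hB, hV]
    have h2 : finrank (ZMod 2) (A ⊔ (W ⊓ W') : Submodule (ZMod 2) V) ≤ 2 * n := by
      rw [← hV]
      exact Submodule.finrank_le _
    omega
  have d2 := Submodule.finrank_sup_add_finrank_inf_eq A (W ⊓ W')
  have d3 := Submodule.finrank_sup_add_finrank_inf_eq (A ⊓ W) (A ⊓ W')
  have h5 : (A ⊓ W) ⊓ (A ⊓ W') = A ⊓ (W ⊓ W') := by
    ext x
    simp only [Submodule.mem_inf]
    tauto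
  rw [h5] at d3
  obtain ⟨r, hr⟩ := heven
  have h6 : finrank (ZMod 2) (A ⊓ (W ⊓ W') : Submodule (ZMod 2) V) ≤
    finrank (ZMod 2) (A ⊓ W : Submodule (ZMod 2) V) := by
    apply Submodule.finrank_mono
    intro x hx
    simp only [Submodule.mem_inf] at hx ⊢
    tauto
  rw [Nat.even_iff]
  omega

end Pool.Agent.Y212.RZ
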