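import Pool.Agent.Y667.RZ.Stm
import Pool.Agent.Y212.RZ.Lag0

/-!
# Project RZ (helper667): part LAG
-/

set_option autoImplicit false

namespace Pool.Agent.Y212.RZ

/-- **LAG** (three Lagrangians of a quadratic space over the field with two elements). -/
theorem LAG : Pool.Agent.Y667.RZ.St_LAG := by
  intro V _ _ _ B q n A W W' hV hnd hq hA hW hW' dA dW dW'
  exact lag V B q n A W W' hV hnd hq hA hW hW' dA dW dW'

end Pool.Agent.Y212.RZ
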